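import Pool.Agent.Helper74.NM.St

/-!
# Project NM, module DBD: bad stacks are never emptied
-/

set_option autoImplicit false

namespace Pool.Agent.Helper15.NM

open Pool.Agent.Helper74 Pool.Agent.Helper74.NM

variable {W : Type} (rk : W → Bool)

theorem badIn_mem (σ : List (Lt W)) (h : BadIn rk σ) : ∃ g, Lt.x g ∈ σ := by
  obtain ⟨i, σ', rfl, s, g, σ₁, rfl, _, _⟩ := h
  exact ⟨g, by simp⟩

theorem badIn_ne (σ : List (Lt W)) (h : BadIn rk σ) : σ ≠ [] := by
  obtain ⟨i, σ', rfl, _⟩ := h
  simp

theorem hDBD (hGA : StGA) (hSTP : StSTP) (hDAB : StDAB) : StDBD := by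
  intro α W rk l hl y w
  have step : ∀ (u : List (Lt W)), (∀ σ, BadOut rk σ → Dead (P rk) op y u σ) →
      ∀ (m : List (W × List W)) (σ : List (Lt W)), (∀ g ∈ m, Rc rk g) → BadIn rk σ →
      Dead (P rk) op y (m.flatMap (gd rk) ++ .k (.b true) :: u) σ := by
    intro u hu m
    induction m with
    | nil =>
      intro σ _ hσ
      rw [List.flatMap_nil, List.nil_append, dead_cons]
      obtain ⟨i, σ', rfl, hσ'⟩ := hσ
      refine ⟨fun h => by simp at h, fun h => by simp [op] at h, ?_⟩
      intro x σ'' e _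
      rw [List.cons.injEq] at e
      obtain ⟨_, rfl⟩ := e
      exact hu _ hσ'
    | cons g m ih =>
      intro σ hm hσ
      have hg : Rc rk g := hm g (by simp)
      have hm' : ∀ g ∈ m, Rc rk g := fun g' h => hm g' (by simp [h])
      rw [List.flatMap_cons, List.append_assoc, dead_append]
      refine ⟨?_, fun τ hτ => ih τ hm' ((hSTP W rk g hg).2.1 σ τ hσ hτ)⟩
      rw [gd, dead_append]
      refine ⟨(hDAB W rk y g σ).1 fun h => absurd h (badIn_ne rk σ hσ), ?_⟩
      intro τ hτ
      refine (hDAB W rk y g τ).2 fun h => ?_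
      exfalso
      subst h
      rcases (hGA W rk g σ).2.2 (clean_badIn rk σ hσ) [] hτ with h | h
      · simp at h
      · obtain ⟨g₀, hg₀⟩ := badIn_mem rk σ hσ
        rw [h] at hg₀
        simp [Zs] at hg₀
  induction w with
  | nil =>
    have h2 : ∀ σ : List (Lt W), BadOut rk σ →
        Dead (P rk) op y (([] : List α).flatMap fun a => blk rk (l a)) σ := fun σ _ => dead_nil _ _ _ _
    exact ⟨fun m σ hm hσ => step _ h2 m σ hm hσ, h2⟩
  | cons a w ih =>
    have h2 : ∀ σ : List (Lt W), BadOut rk σ →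
        Dead (P rk) op y ((a :: w).flatMap fun a => blk rk (l a)) σ := by
      intro σ hσ
      have hne : σ ≠ [] := by
        obtain ⟨s, g, σ₁, rfl, _, _⟩ := hσ
        simp
      rw [List.flatMap_cons, blk, List.cons_append, dead_cons]
      refine ⟨fun h => absurd h hne, fun _ => ?_, fun x σ' _ hx => absurd hx (not_p_o rk x _)⟩
      rw [List.append_assoc, List.singleton_append]
      exact ih.1 (l a) _ (hl a) ⟨false, σ, rfl, hσ⟩
    exact ⟨fun m σ hm hσ => step _ h2 m σ hm hσ, h2⟩

end Pool.Agent.Helper15.NM
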